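import Mathlib

/-!
Iterated telescoping averages with Catalan weights.  This file is the geometric core of the bound
`θ < 13/20` for the opening of two subspaces with different density characters; largeness of sets
is an abstract predicate here.
-/

set_option autoImplicit false

namespace Pool.Agent.Y912.OP

open Finset

/-- Catalan weights: `wt k 0, ..., wt k k` are nonnegative with sum `1` -/
noncomputable def wt (k j : ℕ) : ℝ := (catalan j : ℝ) * catalan (k - j) / catalan (k + 1)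

theorem cat_pos (n : ℕ) : (0 : ℝ) < catalan n := by
  have h := succ_mul_catalan_eq_centralBinom n
  have h2 := Nat.centralBinom_pos n
  have : 0 < catalan n := by
    rcases Nat.eq_zero_or_pos (catalan n) with h0 | h0
    · rw [h0] at h; omega
    · exact h0
  exact_mod_cast this

theorem cat_succ (n : ℕ) :
    (catalan (n + 1) : ℝ) = ∑ j ∈ range (n + 1), (catalan j : ℝ) * catalan (n - j) := by
  rw [catalan_succ]
  push_cast
  exact Fin.sum_univ_eq_sum_range (fun i => (catalan i : ℝ) * catalan (n - i)) (n + 1)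

theorem wt_nonneg (k j : ℕ) : 0 ≤ wt k j := by
  have h1 := cat_pos j
  have h2 := cat_pos (k - j)
  have h3 := cat_pos (k + 1)
  unfold wt
  positivity

theorem wt_sum (k : ℕ) : ∑ j ∈ range (k + 1), wt k j = 1 := by
  unfold wt
  rw [← Finset.sum_div, ← cat_succ, div_self (cat_pos _).ne']

theorem wt_conv {k l : ℕ} (hl : l < k) : ∑ j ∈ Ico l k, wt k (j + 1) * wt j l = wt k l := by
  obtain ⟨m, rfl⟩ : ∃ m, k = l + (m + 1) := ⟨k - l - 1, by omega⟩
  rw [Finset.sum_Ico_eq_sum_range]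
  have h1 : l + (m + 1) - l = m + 1 := by omega
  rw [h1]
  have h2 : ∀ j ∈ range (m + 1), wt (l + (m + 1)) (l + j + 1) * wt (l + j) l =
      (catalan l : ℝ) / catalan (l + (m + 1) + 1) * ((catalan j : ℝ) * catalan (m - j)) := by
    intro j hj
    have hj' : j < m + 1 := Finset.mem_range.mp hj
    have e1 : l + (m + 1) - (l + j + 1) = m - j := by omega
    have e2 : l + j - l = j := by omega
    unfold wt
    rw [e1, e2]
    have h3 := (cat_pos (l + j + 1)).ne'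
    have h4 := (cat_pos (l + (m + 1) + 1)).ne'
    field_simp
  rw [Finset.sum_congr rfl h2, ← Finset.mul_sum, ← cat_succ]
  unfold wt
  rw [h1]
  ring

variable {E : Type*} [NormedAddCommGroup E] [NormedSpace ℝ E]

theorem mix_conv (k : ℕ) (f : ℕ → E) :
    ∑ j ∈ range k, wt k (j + 1) • ∑ l ∈ range (j + 1), wt j l • f l =
      ∑ l ∈ range k, wt k l • f l := by
  simp_rw [Finset.smul_sum, smul_smul]
  rw [Finset.sum_comm' (t' := range k) (s' := fun l => Ico l k) (by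
    intro j l
    simp only [Finset.mem_range, Finset.mem_Ico]
    omega)]
  refine Finset.sum_congr rfl fun l hl => ?_
  rw [← Finset.sum_smul, wt_conv (Finset.mem_range.mp hl)]

theorem mix_eq (K : ℕ) (g U : ℕ → E) (h0 : U 0 = 0) :
    ∑ j ∈ range (K + 1), wt K j • g j = wt K K • (g K + U K) -
      ∑ j ∈ range K, wt K (j + 1) •
        (U (j + 1) - ∑ l ∈ range (j + 1), wt j l • (g l + U l)) := by
  have h1 := mix_conv K (fun l => g l + U l)
  have h2 : ∑ j ∈ range (K + 1), wt K j • U j = ∑ j ∈ range K, wt K (j + 1) • U (j + 1) := by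
    rw [Finset.sum_range_succ', h0, smul_zero, add_zero]
  have h3 : ∑ j ∈ range (K + 1), wt K j • g j =
      ∑ j ∈ range (K + 1), wt K j • (g j + U j) - ∑ j ∈ range (K + 1), wt K j • U j := by
    rw [← Finset.sum_sub_distrib]
    refine Finset.sum_congr rfl fun j _ => ?_
    module
  rw [h3, h2, Finset.sum_range_succ]
  simp_rw [smul_sub]
  rw [Finset.sum_sub_distrib, h1]
  abel

theorem mix_bound {K : ℕ} {g U : ℕ → E} {ρ N : ℕ → ℝ} {a δ : ℝ} (h0 : U 0 = 0)
    (hK : ‖g K + U K‖ ≤ ρ K + δ)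
    (hU : ∀ i < K, ‖U (i + 1) - ∑ j ∈ range (i + 1), wt i j • (g j + U j)‖ ≤ a * N i) :
    ‖∑ j ∈ range (K + 1), wt K j • g j‖ ≤
      wt K K * (ρ K + δ) + ∑ j ∈ range K, wt K (j + 1) * (a * N j) := by
  rw [mix_eq K g U h0]
  refine (norm_sub_le _ _).trans (add_le_add ?_ ?_)
  · rw [norm_smul, Real.norm_of_nonneg (wt_nonneg _ _)]
    exact mul_le_mul_of_nonneg_left hK (wt_nonneg _ _)
  · refine (norm_sum_le _ _).trans (Finset.sum_le_sum fun j hj => ?_)
    rw [norm_smul, Real.norm_of_nonneg (wt_nonneg _ _)]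
    exact mul_le_mul_of_nonneg_left (hU j (Finset.mem_range.mp hj)) (wt_nonneg _ _)

/-- the relations between the data `g, U` up to level `K` -/
def Pre (G₁ G₂ : Submodule ℝ E) (ρ N : ℕ → ℝ) (a δ : ℝ) (K : ℕ) (g U : ℕ → E) : Prop :=
  (∀ i ≤ K, g i ∈ G₁ ∧ U i ∈ G₂) ∧ U 0 = 0 ∧ (∀ i < K, ‖g i + U i‖ ≤ ρ i + δ) ∧
    ∀ i < K, ‖U (i + 1) - ∑ j ∈ range (i + 1), wt i j • (g j + U j)‖ ≤ a * N i

theorem cvx {s t b : ℝ} (hs : 0 ≤ s) (ht : 0 ≤ t) (hst : s + t = 1) {A B : E}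
    (hA : ‖A‖ ≤ b) (hB : ‖B‖ ≤ b) : ‖s • A + t • B‖ ≤ b := by
  calc ‖s • A + t • B‖ ≤ ‖s • A‖ + ‖t • B‖ := norm_add_le _ _
    _ = s * ‖A‖ + t * ‖B‖ := by
      rw [norm_smul, norm_smul, Real.norm_of_nonneg hs, Real.norm_of_nonneg ht]
    _ ≤ s * b + t * b := add_le_add (mul_le_mul_of_nonneg_left hA hs)
        (mul_le_mul_of_nonneg_left hB ht)
    _ = b := by rw [← add_mul, hst, one_mul]

theorem Pre.combo {G₁ G₂ : Submodule ℝ E} {ρ N : ℕ → ℝ} {a δ : ℝ} {K : ℕ} {g U g' U' : ℕ → E}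
    {s t : ℝ} (hs : 0 ≤ s) (ht : 0 ≤ t) (hst : s + t = 1)
    (h : Pre G₁ G₂ ρ N a δ K g U) (h' : Pre G₁ G₂ ρ N a δ K g' U') :
    Pre G₁ G₂ ρ N a δ K (fun i => s • g i + t • g' i) (fun i => s • U i + t • U' i) := by
  obtain ⟨h1, h2, h3, h4⟩ := h
  obtain ⟨h1', h2', h3', h4'⟩ := h'
  refine ⟨fun i hi => ⟨?_, ?_⟩, ?_, fun i hi => ?_, fun i hi => ?_⟩
  · exact G₁.add_mem (G₁.smul_mem _ (h1 i hi).1) (G₁.smul_mem _ (h1' i hi).1)
  · exact G₂.add_mem (G₂.smul_mem _ (h1 i hi).2) (G₂.smul_mem _ (h1' i hi).2)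
  · simp only [h2, h2', smul_zero, add_zero]
  · have : s • g i + t • g' i + (s • U i + t • U' i) = s • (g i + U i) + t • (g' i + U' i) := by
      module
    simp only [this]
    exact cvx hs ht hst (h3 i hi) (h3' i hi)
  · have e1 : ∑ j ∈ range (i + 1), wt i j • (s • g j + t • g' j + (s • U j + t • U' j)) =
        s • ∑ j ∈ range (i + 1), wt i j • (g j + U j) +
          t • ∑ j ∈ range (i + 1), wt i j • (g' j + U' j) := by
      rw [Finset.smul_sum, Finset.smul_sum, ← Finset.sum_add_distrib]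
      refine Finset.sum_congr rfl fun j _ => ?_
      module
    have e2 : s • U (i + 1) + t • U' (i + 1) -
        ∑ j ∈ range (i + 1), wt i j • (s • g j + t • g' j + (s • U j + t • U' j)) =
        s • (U (i + 1) - ∑ j ∈ range (i + 1), wt i j • (g j + U j)) +
          t • (U' (i + 1) - ∑ j ∈ range (i + 1), wt i j • (g' j + U' j)) := by
      rw [e1]
      module
    simp only [e2]
    exact cvx hs ht hst (h4 i hi) (h4' i hi)

/-- `W` lies in every ball that contains `Y` -/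
def Avg (Y : Set E) (W : E) : Prop := ∀ (c : E) (r : ℝ), (∀ y ∈ Y, ‖y - c‖ ≤ r) → ‖W - c‖ ≤ r

omit [NormedSpace ℝ E] in
theorem Avg.mono {Y Y' : Set E} {W : E} (h : Avg Y' W) (hY : Y' ⊆ Y) : Avg Y W :=
  fun c r hr => h c r fun y hy => hr y (hY hy)

theorem Avg.combo {Y : Set E} {W W' : E} {s t : ℝ} (hs : 0 ≤ s) (ht : 0 ≤ t) (hst : s + t = 1)
    (h : Avg Y W) (h' : Avg Y W') : Avg Y (s • W + t • W') := by
  intro c r hr
  have : s • W + t • W' - c = s • (W - c) + t • (W' - c) := by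
    have hc : c = (s + t) • c := by rw [hst, one_smul]
    calc s • W + t • W' - c = s • W + t • W' - (s + t) • c := by rw [← hc]
      _ = _ := by module
  rw [this]
  exact cvx hs ht hst (h c r hr) (h' c r hr)

/-- one block: a large subset of `Y` and data of type `C` close to all its elements -/
def Blk (L : Set E → Prop) (G₂ : Submodule ℝ E) (ρ : ℕ → ℝ) (K : ℕ)
    (C : (ℕ → E) → (ℕ → E) → Prop) (Y : Set E) : Prop :=
  ∃ Y' : Set E, Y' ⊆ Y ∧ L Y' ∧ ∃ (W : E) (g U : ℕ → E), W ∈ G₂ ∧ Avg Y W ∧ C g U ∧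
    ∀ y ∈ Y', ∀ i ≤ K, ‖y - W - U i - g i‖ ≤ ρ i

/-- telescoping: averages of `n` blocks satisfy one more relation -/
theorem tele {L : Set E → Prop} {G₁ G₂ : Submodule ℝ E} {ρ N : ℕ → ℝ} {a δ : ℝ} (hδ : 0 < δ)
    {K : ℕ} {Y₀ : Set E} {M : ℝ} (hdiam : ∀ y ∈ Y₀, ∀ y' ∈ Y₀, ‖y' - y‖ ≤ M)
    (hne : ∀ Y, L Y → Y.Nonempty)
    (hblk : ∀ Y, Y ⊆ Y₀ → L Y → Blk L G₂ ρ K (Pre G₁ G₂ ρ N a δ K) Y) :
    ∀ Y, Y ⊆ Y₀ → L Y →
      Blk L G₂ ρ K (fun g U => Pre G₁ G₂ ρ N a δ K g U ∧ ‖g K + U K‖ ≤ ρ K + δ) Y := by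
  have claim : ∀ n : ℕ, ∀ Y, Y ⊆ Y₀ → L Y → ∃ Y' : Set E, Y' ⊆ Y ∧ L Y' ∧
      ∃ (W : E) (g U : ℕ → E) (w₁ : E), W ∈ G₂ ∧ Avg Y W ∧ Pre G₁ G₂ ρ N a δ K g U ∧ Avg Y w₁ ∧
      ∀ y ∈ Y', (∀ i ≤ K, ‖y - W - U i - g i‖ ≤ ρ i) ∧
        ‖y - w₁ - ((n : ℝ) + 1) • (g K + U K)‖ ≤ ((n : ℝ) + 1) * ρ K := by
    intro n
    induction n with
    | zero =>
      intro Y hY hL
      obtain ⟨Y', hY', hL', W, g, U, hW, hA, hP, hn⟩ := hblk Y hY hL
      refine ⟨Y', hY', hL', W, g, U, W, hW, hA, hP, hA, fun y hy => ⟨hn y hy, ?_⟩⟩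
      have h1 := hn y hy K le_rfl
      have h2 : y - W - (((0 : ℕ) : ℝ) + 1) • (g K + U K) = y - W - U K - g K := by
        simp only [Nat.cast_zero, zero_add, one_smul]
        abel
      rw [h2]
      simpa using h1
    | succ n ih =>
      intro Y hY hL
      obtain ⟨Y₁, hY₁, hL₁, W, g, U, w₁, hW, hA, hP, hA₁, hn⟩ := ih Y hY hL
      obtain ⟨Y₂, hY₂, hL₂, W', g', U', hW', hA', hP', hn'⟩ := hblk Y₁ (hY₁.trans hY) hL₁
      have hn0 : (0 : ℝ) < (n : ℝ) + 2 := by positivity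
      set s : ℝ := ((n : ℝ) + 1) / ((n : ℝ) + 2) with hs
      set t : ℝ := 1 / ((n : ℝ) + 2) with ht
      have hs0 : 0 ≤ s := by positivity
      have ht0 : 0 ≤ t := by positivity
      have hst : s + t = 1 := by
        rw [hs, ht]
        field_simp
        ring
      have hns : ((n : ℝ) + 2) * s = (n : ℝ) + 1 := by
        rw [hs]
        field_simp
      have hnt : ((n : ℝ) + 2) * t = 1 := by
        rw [ht]
        field_simp
      refine ⟨Y₂, hY₂.trans hY₁, hL₂, s • W + t • W', fun i => s • g i + t • g' i,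
        fun i => s • U i + t • U' i, w₁, G₂.add_mem (G₂.smul_mem _ hW) (G₂.smul_mem _ hW'),
        hA.combo hs0 ht0 hst (hA'.mono hY₁), hP.combo hs0 ht0 hst hP', hA₁, fun y hy => ⟨?_, ?_⟩⟩
      · intro i hi
        have h1 := (hn y (hY₂ hy)).1 i hi
        have h2 := hn' y hy i hi
        have e : y - (s • W + t • W') - (s • U i + t • U' i) - (s • g i + t • g' i) =
            s • (y - W - U i - g i) + t • (y - W' - U' i - g' i) := by
          have hc : y = (s + t) • y := by rw [hst, one_smul]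
          calc _ = (s + t) • y - (s • W + t • W') - (s • U i + t • U' i) -
                (s • g i + t • g' i) := by rw [← hc]
            _ = _ := by module
        rw [e]
        exact cvx hs0 ht0 hst h1 h2
      · -- telescoping
        have h1 : ‖W' - (w₁ + ((n : ℝ) + 1) • (g K + U K))‖ ≤ ((n : ℝ) + 1) * ρ K := by
          refine hA' _ _ fun z hz => ?_
          have := (hn z hz).2
          rwa [← sub_sub]
        have h2 := hn' y hy K le_rfl
        have e : y - w₁ - (((n + 1 : ℕ) : ℝ) + 1) • (s • g K + t • g' K + (s • U K + t • U' K)) =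
            (y - W' - U' K - g' K) + (W' - (w₁ + ((n : ℝ) + 1) • (g K + U K))) := by
          have e1 : (((n + 1 : ℕ) : ℝ) + 1) = (n : ℝ) + 2 := by push_cast; ring
          rw [e1]
          have e2 : ((n : ℝ) + 2) • (s • g K + t • g' K + (s • U K + t • U' K)) =
              (((n : ℝ) + 2) * s) • (g K + U K) + (((n : ℝ) + 2) * t) • (g' K + U' K) := by
            module
          rw [e2, hns, hnt]
          module
        have e3 : ((n + 1 : ℕ) : ℝ) + 1 = ((n : ℝ) + 1) + 1 := by push_cast; ring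
        simp only [e]
        rw [e3]
        calc _ ≤ ‖y - W' - U' K - g' K‖ + ‖W' - (w₁ + ((n : ℝ) + 1) • (g K + U K))‖ :=
              norm_add_le _ _
          _ ≤ ρ K + ((n : ℝ) + 1) * ρ K := add_le_add h2 h1
          _ = _ := by ring
  intro Y hY hL
  obtain ⟨n, hn⟩ := exists_nat_ge (M / δ)
  obtain ⟨Y', hY', hL', W, g, U, w₁, hW, hA, hP, hA₁, hy'⟩ := claim n Y hY hL
  refine ⟨Y', hY', hL', W, g, U, hW, hA, ⟨hP, ?_⟩, fun y hy => (hy' y hy).1⟩
  obtain ⟨y, hy⟩ := hne Y' hL'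
  have h1 := (hy' y hy).2
  have h2 : ‖w₁ - y‖ ≤ M := hA₁ y M fun z hz => hdiam y (hY (hY' hy)) z (hY hz)
  have hn1 : (0 : ℝ) < (n : ℝ) + 1 := by positivity
  have h3 : ((n : ℝ) + 1) * ‖g K + U K‖ ≤ ((n : ℝ) + 1) * ρ K + M := by
    have e : ((n : ℝ) + 1) * ‖g K + U K‖ = ‖((n : ℝ) + 1) • (g K + U K)‖ := by
      rw [norm_smul, Real.norm_of_nonneg hn1.le]
    rw [e]
    have e2 : ((n : ℝ) + 1) • (g K + U K) =
        -(y - w₁ - ((n : ℝ) + 1) • (g K + U K)) - (w₁ - y) := by abel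
    rw [e2]
    refine (norm_sub_le _ _).trans ?_
    rw [norm_neg]
    exact add_le_add h1 h2
  have h4 : M ≤ δ * (n : ℝ) := by
    rw [div_le_iff₀ hδ] at hn
    linarith
  have h5 : ((n : ℝ) + 1) * ‖g K + U K‖ ≤ ((n : ℝ) + 1) * (ρ K + δ) := by nlinarith
  exact le_of_mul_le_mul_left h5 hn1

end Pool.Agent.Y912.OP
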