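import Pool.Agent.Y912.OP.Core

/-!
Numerical part: with `a = 13/20` the numbers `μ k` drop below `9996/10000` for `k = 45`.
-/

set_option autoImplicit false

namespace Pool.Agent.Y912.OP

open Finset

/-- the Catalan numbers up to `catalan 46` -/
def CL : List ℕ :=
  [1, 1, 2, 5, 14, 42, 132, 429, 1430, 4862, 16796, 58786, 208012, 742900, 2674440, 9694845,
    35357670, 129644790, 477638700, 1767263190, 6564120420, 24466267020, 91482563640,
    343059613650, 1289904147324, 4861946401452, 18367353072152, 69533550916004,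
    263747951750360, 1002242216651368, 3814986502092304, 14544636039226909,
    55534064877048198, 212336130412243110, 812944042149730764, 3116285494907301262,
    11959798385860453492, 45950804324621742364, 176733862787006701400, 680425371729975800390,
    2622127042276492108820, 10113918591637898134020, 39044429911904443959240,
    150853479205085351660700, 583300119592996693088040, 2257117854077248073253720,
    8740328711533173390046320]

/-- upper bounds for the radii `ρ k`, in units of `10 ^ (-7)` -/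
def RL : List ℕ :=
  [8450000, 9062630, 8766381, 8399480, 8088739, 7841864, 7646929, 7491481, 7365735, 7262488,
    7176509, 7103980, 7042082, 6988704, 6942246, 6901470, 6865415, 6833319, 6804572, 6778685,
    6755255, 6733952, 6714501, 6696674, 6680277, 6665145, 6651138, 6638137, 6626037, 6614749,
    6604193, 6594301, 6585013, 6576274, 6568039, 6560264, 6552912, 6545951, 6539350, 6533080,
    6527118, 6521443, 6516034, 6510872, 6505942, 6501228]

/-- upper bounds for the norms of the mixtures, in units of `10 ^ (-7)` -/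
def NL : List ℕ :=
  [8450010, 7277574, 6497227, 5968522, 5596578, 5324926, 5119826, 4960506, 4833719, 4730725,
    4645579, 4574118, 4513353, 4461094, 4415699, 4375917, 4340782, 4309533, 4281566, 4256394,
    4233622, 4212924, 4194032, 4176720, 4160800, 4146111, 4132516, 4119898, 4108156, 4097202,
    4086959, 4077361, 4068349, 4059870, 4051880, 4044337, 4037205, 4030451, 4024046, 4017963,
    4012179, 4006673, 4001425, 3996417, 3991633, 3987059]

/-- upper bounds for `μ k`, in units of `10 ^ (-7)` -/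
def ML : List ℕ :=
  [13942507, 13486739, 12922276, 12444213, 12064405, 11764506, 11525355, 11331899, 11173058,
    11040782, 10929199, 10833971, 10751852, 10680377, 10617646, 10562176, 10512797, 10468572,
    10428745, 10392699, 10359925, 10330001, 10302575, 10277348, 10254068, 10232520, 10212518,
    10193903, 10176536, 10160296, 10145078, 10130788, 10117344, 10104674, 10092713, 10081403,
    10070693, 10060537, 10050892, 10041720, 10032989, 10024667, 10016726, 10009141, 10001888,
    9994946]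

/-- sums, evaluated by structural recursion -/
def sumTo (f : ℕ → ℕ) : ℕ → ℕ
  | 0 => 0
  | n + 1 => sumTo f n + f n

theorem sumTo_eq (f : ℕ → ℕ) (n : ℕ) : sumTo f n = ∑ j ∈ range n, f j := by
  induction n with
  | zero => simp [sumTo]
  | succ n ih => rw [Finset.sum_range_succ, sumTo, ih]

theorem cl_rec : ∀ k < 46, (k + 2) * CL.getD (k + 1) 0 = 2 * (2 * k + 1) * CL.getD k 0 := by
  decide +kernel

theorem chk_N : ∀ k < 46, 20 * (CL.getD k 0 * CL.getD 0 0 * (RL.getD k 0 + 10)) +
    13 * sumTo (fun j => CL.getD (j + 1) 0 * CL.getD (k - (j + 1)) 0 * NL.getD j 0) k ≤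
      20 * (CL.getD (k + 1) 0 * NL.getD k 0) := by
  decide +kernel

theorem chk_M : ∀ k < 46, 20 * sumTo (fun j => CL.getD j 0 * CL.getD (k - j) 0 * RL.getD j 0)
      (k + 1) + 13 * (CL.getD (k + 1) 0 * NL.getD k 0) ≤
      20 * (CL.getD (k + 1) 0 * ML.getD k 0) := by
  decide +kernel

theorem chk_R : ∀ k < 45, 13 * ML.getD k 0 ≤ 20 * RL.getD (k + 1) 0 := by
  decide +kernel

theorem cat_rec (k : ℕ) : (k + 2) * catalan (k + 1) = 2 * (2 * k + 1) * catalan k := by
  have h1 := succ_mul_catalan_eq_centralBinom k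
  have h2 := succ_mul_catalan_eq_centralBinom (k + 1)
  have h3 := Nat.succ_mul_centralBinom_succ k
  rw [← h1, ← h2] at h3
  have h4 : (k + 1) * ((k + 2) * catalan (k + 1)) = (k + 1) * (2 * (2 * k + 1) * catalan k) := by
    calc (k + 1) * ((k + 2) * catalan (k + 1)) = (k + 1) * ((k + 1 + 1) * catalan (k + 1)) := by ring
      _ = 2 * (2 * k + 1) * ((k + 1) * catalan k) := h3
      _ = _ := by ring
  exact Nat.eq_of_mul_eq_mul_left (Nat.succ_pos k) h4

theorem cat_list : ∀ k ≤ 46, catalan k = CL.getD k 0 := by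
  intro k
  induction k with
  | zero =>
    intro _
    rw [catalan_zero]
    decide
  | succ k ih =>
    intro hk
    have h1 := cat_rec k
    have h2 := cl_rec k (by omega)
    rw [ih (by omega)] at h1
    rw [← h2] at h1
    exact Nat.eq_of_mul_eq_mul_left (Nat.succ_pos (k + 1)) h1

/-- the radii -/
noncomputable def rhoS (k : ℕ) : ℝ := (RL.getD k 0 : ℝ) / 10 ^ 7
/-- the norms of the mixtures -/
noncomputable def enS (k : ℕ) : ℝ := (NL.getD k 0 : ℝ) / 10 ^ 7
/-- the distances -/
noncomputable def muS (k : ℕ) : ℝ := (ML.getD k 0 : ℝ) / 10 ^ 7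

theorem num_N (k : ℕ) (hk : k ≤ 45) :
    wt k k * (rhoS k + 1 / 10 ^ 6) + ∑ j ∈ range k, wt k (j + 1) * (13 / 20 * enS j) ≤ enS k := by
  have h := chk_N k (by omega)
  rw [sumTo_eq] at h
  have hc : ∀ j ≤ 46, (CL.getD j 0 : ℝ) = (catalan j : ℝ) := fun j hj => by
    rw [cat_list j hj]
  have hR : (20 * ((catalan k : ℝ) * catalan 0 * ((RL.getD k 0 : ℝ) + 10)) +
      13 * ∑ j ∈ range k, (catalan (j + 1) : ℝ) * catalan (k - (j + 1)) * (NL.getD j 0 : ℝ)) ≤
      20 * ((catalan (k + 1) : ℝ) * (NL.getD k 0 : ℝ)) := by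
    have h' : ((20 * (CL.getD k 0 * CL.getD 0 0 * (RL.getD k 0 + 10)) +
      13 * ∑ j ∈ range k, CL.getD (j + 1) 0 * CL.getD (k - (j + 1)) 0 * NL.getD j 0 : ℕ) : ℝ) ≤
      ((20 * (CL.getD (k + 1) 0 * NL.getD k 0) : ℕ) : ℝ) := by exact_mod_cast h
    push_cast at h'
    rw [hc k (by omega), hc 0 (by omega), hc (k + 1) (by omega)] at h'
    refine le_trans (le_of_eq ?_) h'
    congr 2
    refine Finset.sum_congr rfl fun j hj => ?_
    rw [Finset.mem_range] at hj
    rw [hc (j + 1) (by omega), hc (k - (j + 1)) (by omega)]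
  have hp := cat_pos (k + 1)
  have e : wt k k * (rhoS k + 1 / 10 ^ 6) + ∑ j ∈ range k, wt k (j + 1) * (13 / 20 * enS j) =
      (20 * ((catalan k : ℝ) * catalan 0 * ((RL.getD k 0 : ℝ) + 10)) +
      13 * ∑ j ∈ range k, (catalan (j + 1) : ℝ) * catalan (k - (j + 1)) * (NL.getD j 0 : ℝ)) /
      (20 * 10 ^ 7 * (catalan (k + 1) : ℝ)) := by
    have e1 : ∑ j ∈ range k, wt k (j + 1) * (13 / 20 * enS j) =
        (13 * ∑ j ∈ range k, (catalan (j + 1) : ℝ) * catalan (k - (j + 1)) * (NL.getD j 0 : ℝ)) /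
          (20 * 10 ^ 7 * (catalan (k + 1) : ℝ)) := by
      rw [Finset.mul_sum, Finset.sum_div]
      refine Finset.sum_congr rfl fun j _ => ?_
      unfold wt enS
      field_simp
    rw [e1]
    unfold wt rhoS
    rw [Nat.sub_self]
    field_simp
  rw [e, div_le_iff₀ (by positivity)]
  refine hR.trans (le_of_eq ?_)
  unfold enS
  field_simp

theorem num_M (k : ℕ) (hk : k ≤ 45) :
    ∑ j ∈ range (k + 1), wt k j * rhoS j + 13 / 20 * enS k ≤ muS k := by
  have h := chk_M k (by omega)
  rw [sumTo_eq] at h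
  have hc : ∀ j ≤ 46, (CL.getD j 0 : ℝ) = (catalan j : ℝ) := fun j hj => by
    rw [cat_list j hj]
  have hR : (20 * ∑ j ∈ range (k + 1), (catalan j : ℝ) * catalan (k - j) * (RL.getD j 0 : ℝ) +
      13 * ((catalan (k + 1) : ℝ) * (NL.getD k 0 : ℝ))) ≤
      20 * ((catalan (k + 1) : ℝ) * (ML.getD k 0 : ℝ)) := by
    have h' : ((20 * ∑ j ∈ range (k + 1), CL.getD j 0 * CL.getD (k - j) 0 * RL.getD j 0 +
      13 * (CL.getD (k + 1) 0 * NL.getD k 0) : ℕ) : ℝ) ≤
      ((20 * (CL.getD (k + 1) 0 * ML.getD k 0) : ℕ) : ℝ) := by exact_mod_cast h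
    push_cast at h'
    rw [hc (k + 1) (by omega)] at h'
    refine le_trans (le_of_eq ?_) h'
    congr 2
    refine Finset.sum_congr rfl fun j hj => ?_
    rw [Finset.mem_range] at hj
    rw [hc j (by omega), hc (k - j) (by omega)]
  have hp := cat_pos (k + 1)
  have e : ∑ j ∈ range (k + 1), wt k j * rhoS j + 13 / 20 * enS k =
      (20 * ∑ j ∈ range (k + 1), (catalan j : ℝ) * catalan (k - j) * (RL.getD j 0 : ℝ) +
      13 * ((catalan (k + 1) : ℝ) * (NL.getD k 0 : ℝ))) /
      (20 * 10 ^ 7 * (catalan (k + 1) : ℝ)) := by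
    have e1 : ∑ j ∈ range (k + 1), wt k j * rhoS j =
        (20 * ∑ j ∈ range (k + 1), (catalan j : ℝ) * catalan (k - j) * (RL.getD j 0 : ℝ)) /
          (20 * 10 ^ 7 * (catalan (k + 1) : ℝ)) := by
      rw [Finset.mul_sum, Finset.sum_div]
      refine Finset.sum_congr rfl fun j _ => ?_
      unfold wt rhoS
      field_simp
    rw [e1]
    unfold enS
    field_simp
  rw [e, div_le_iff₀ (by positivity)]
  refine hR.trans (le_of_eq ?_)
  unfold muS
  field_simp

theorem num_R (k : ℕ) (hk : k < 45) : 13 / 20 * muS k ≤ rhoS (k + 1) := by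
  have h := chk_R k hk
  have h' : (13 * (ML.getD k 0 : ℝ)) ≤ 20 * (RL.getD (k + 1) 0 : ℝ) := by exact_mod_cast h
  unfold muS rhoS
  rw [le_div_iff₀ (by positivity)]
  have e : 13 / 20 * ((ML.getD k 0 : ℝ) / 10 ^ 7) * 10 ^ 7 = 13 * (ML.getD k 0 : ℝ) / 20 := by ring
  rw [e]
  linarith

theorem num_0 : (13 / 20 : ℝ) * (2 * (13 / 20)) ≤ rhoS 0 := by
  have h : RL.getD 0 0 = 8450000 := by decide
  unfold rhoS
  rw [h]
  norm_num

theorem num_fin : muS 45 < 9996 / 10000 := by
  have h : ML.getD 45 0 = 9994946 := by decide +kernel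
  unfold muS
  rw [h]
  norm_num

end Pool.Agent.Y912.OP
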