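import Pool.Agent.Y912.OP.Main
import Pool.Agent.Y912.OP.Num

/-!
Infinite-dimensional part: opening less than `13/20` forces equal density characters.
(The notion of a small set is that of the file `Pool.Agent.Helper325.OpeningInf`, with another
threshold.)
-/

set_option autoImplicit false

namespace Pool.Agent.Y912.OP

open Cardinal Set

universe u v

variable {𝕜 : Type v} [RCLike 𝕜] {E : Type u} [NormedAddCommGroup E] [NormedSpace 𝕜 E]

/-- `A` is small: it stays uniformly close to the span of at most `κ` vectors of `G`. -/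
def Small (κ : Cardinal.{u}) (G : Submodule 𝕜 E) (A : Set E) : Prop :=
  ∃ s : Set E, s ⊆ G ∧ #s ≤ κ ∧ ∀ y ∈ A, ∃ z ∈ Submodule.span 𝕜 s, ‖y - z‖ < 9996 / 10000

theorem pigeon {κ : Cardinal.{u}} (hκ : ℵ₀ ≤ κ) {G : Submodule 𝕜 E} {A : Set E}
    (hA : ¬ Small κ G A) {D : Set E} (hD : #D ≤ κ) (R : E → E → Prop)
    (hR : ∀ y ∈ A, ∃ d ∈ D, R d y) : ∃ d ∈ D, ¬ Small κ G {y | y ∈ A ∧ R d y} := by
  by_contra hcon
  push Not at hcon
  have hcon' : ∀ d : D, ∃ s : Set E, s ⊆ G ∧ #s ≤ κ ∧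
      ∀ y ∈ {y | y ∈ A ∧ R d y}, ∃ z ∈ Submodule.span 𝕜 s, ‖y - z‖ < 9996 / 10000 :=
    fun d => hcon d d.2
  choose s hs1 hs2 hs3 using hcon'
  apply hA
  refine ⟨⋃ d, s d, ?_, ?_, ?_⟩
  · exact iUnion_subset hs1
  · refine (mk_iUnion_le s).trans ?_
    have h1 : (⨆ i, #(s i)) ≤ κ := ciSup_le' hs2
    calc #D * ⨆ i, #(s i) ≤ κ * κ := mul_le_mul' hD h1
      _ = κ := mul_eq_self hκ
  · intro y hy
    obtain ⟨d, hd, hRd⟩ := hR y hy
    obtain ⟨z, hz, hyz⟩ := hs3 ⟨d, hd⟩ y ⟨hy, hRd⟩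
    exact ⟨z, Submodule.span_mono (subset_iUnion s ⟨d, hd⟩) hz, hyz⟩

theorem sphere_not_small {κ : Cardinal.{u}} {G : Submodule 𝕜 E}
    (hG : ∀ s : Set E, s ⊆ G → #s ≤ κ → ¬ G ≤ (Submodule.span 𝕜 s).topologicalClosure) :
    ¬ Small κ G {y | y ∈ G ∧ ‖y‖ = 1} := by
  rintro ⟨s, hs, hsκ, h⟩
  have hne := hG s hs hsκ
  have hex : ∃ x : E, x ∈ G ∧ x ∉ (Submodule.span 𝕜 s).topologicalClosure := by
    by_contra hc
    push Not at hc
    exact hne hc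
  obtain ⟨x, hxG, hx⟩ := hex
  set F : Submodule 𝕜 G := ((Submodule.span 𝕜 s).topologicalClosure).comap G.subtype with hF
  have hFc : IsClosed (F : Set G) := by
    have : (F : Set G) = (fun x : G => (x : E)) ⁻¹'
        ((Submodule.span 𝕜 s).topologicalClosure : Set E) := by
      ext x; simp [hF]
    rw [this]
    exact (Submodule.isClosed_topologicalClosure _).preimage continuous_subtype_val
  obtain ⟨x₀, -, hn, hr⟩ := riesz_lemma_of_lt_one (𝕜 := 𝕜) hFc ⟨⟨x, hxG⟩, by simpa [hF] using hx⟩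
    (r := 9996 / 10000) (by norm_num)
  obtain ⟨z, hz, hxz⟩ := h (x₀ : E) ⟨x₀.2, by simpa using hn⟩
  have hzG : z ∈ G := (Submodule.span_le.mpr hs) hz
  have := hr ⟨z, hzG⟩ (by
    simp only [hF, Submodule.mem_comap, Submodule.subtype_apply]
    exact (Submodule.le_topologicalClosure _) hz)
  have h2 : ‖x₀ - ⟨z, hzG⟩‖ = ‖(x₀ : E) - z‖ := rfl
  rw [h2] at this
  linarith

/-- The key step: under the approximation hypotheses with constant `13/20` in both directions,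
`G₂` is the closed span of at most `κ` vectors, where `κ` bounds the size of the subset `D` of
`G₁`. -/
theorem key {κ : Cardinal.{u}} (hκ : ℵ₀ ≤ κ) {G₁ G₂ : Submodule 𝕜 E} {D : Set E}
    (hDG : D ⊆ G₁) (hDκ : #D ≤ κ)
    (h12 : ∀ x ∈ G₁, ∃ y ∈ G₂, ‖x - y‖ ≤ 13 / 20 * ‖x‖)
    (h21 : ∀ y ∈ G₂, ∃ d ∈ D, ‖y - d‖ ≤ 13 / 20 * ‖y‖) :
    ∃ s : Set E, s ⊆ G₂ ∧ #s ≤ κ ∧ G₂ ≤ (Submodule.span 𝕜 s).topologicalClosure := by
  by_contra hcon
  push Not at hcon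
  have hns := sphere_not_small hcon
  obtain ⟨d₀, hd₀, hY₀⟩ := pigeon hκ hns hDκ (fun d y => ‖y - d‖ ≤ 13 / 20) (by
    rintro y ⟨hy, hy1⟩
    obtain ⟨d, hd, h⟩ := h21 y hy
    exact ⟨d, hd, by rw [hy1] at h; linarith⟩)
  let : NormedSpace ℝ E := NormedSpace.restrictScalars ℝ 𝕜 E
  have : IsScalarTower ℝ 𝕜 E := ⟨fun r c x => by
    change (r • c) • x = (algebraMap ℝ 𝕜 r) • (c • x)
    rw [smul_smul, Algebra.smul_def]⟩
  refine main (G₁ := G₁.restrictScalars ℝ) (G₂ := G₂.restrictScalars ℝ) (D := D)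
    (fun x hx => hDG hx) (L := fun A => ¬ Small κ G₂ A) hY₀ (fun y hy => hy.1.1)
    (a := 13 / 20) (δ := 1 / 10 ^ 6) (t := 9996 / 10000) (by norm_num) (by norm_num) (by norm_num)
    ?_ ?_ ?_ ?_ ?_ (ρ := rhoS) (N := enS) (μ := muS) (K := 45) num_0 num_N num_M num_R num_fin
  · rintro y ⟨-, hy⟩ y' ⟨-, hy'⟩
    calc ‖y' - y‖ = ‖(y' - d₀) - (y - d₀)‖ := by congr 1; abel
      _ ≤ ‖y' - d₀‖ + ‖y - d₀‖ := norm_sub_le _ _
      _ ≤ 2 * (13 / 20) := by linarith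
  · intro Y hY R hR
    exact pigeon hκ hY hDκ R hR
  · intro Y hY z hz
    by_contra hc
    push Not at hc
    refine hY ⟨{z}, by simpa using hz, ?_, fun y hy => ⟨z, Submodule.mem_span_singleton_self z,
      hc y hy⟩⟩
    rw [Cardinal.mk_singleton]
    exact one_le_aleph0.trans hκ
  · intro x hx
    obtain ⟨y, hy, h⟩ := h12 x hx
    exact ⟨y, hy, h⟩
  · intro y hy
    obtain ⟨d, hd, h⟩ := h21 y hy
    exact ⟨d, hd, h⟩

end Pool.Agent.Y912.OP
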