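import Pool.Agent.Y912.OP.Core

/-!
The induction over the levels: no large set can exist if the numbers `μ K` drop below the
threshold `t`.
-/

set_option autoImplicit false

namespace Pool.Agent.Y912.OP

open Finset

variable {E : Type*} [NormedAddCommGroup E] [NormedSpace ℝ E]

theorem sum_wt_dist (K : ℕ) (y W : E) (g U : ℕ → E) :
    ∑ j ∈ range (K + 1), wt K j • (y - W - U j - g j) =
      y - W - ∑ j ∈ range (K + 1), wt K j • U j - ∑ j ∈ range (K + 1), wt K j • g j := by
  simp_rw [smul_sub]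
  rw [Finset.sum_sub_distrib, Finset.sum_sub_distrib, Finset.sum_sub_distrib, ← Finset.sum_smul,
    ← Finset.sum_smul, wt_sum, one_smul, one_smul]

/-- the new vector of `G₂` and its distance from the elements of the large set -/
theorem new_vector {G₁ G₂ : Submodule ℝ E} {ρ N : ℕ → ℝ} {a δ : ℝ} (ha : 0 < a) {K : ℕ}
    (h12 : ∀ x ∈ G₁, ∃ y ∈ G₂, ‖x - y‖ ≤ a * ‖x‖)
    (hN : wt K K * (ρ K + δ) + ∑ j ∈ range K, wt K (j + 1) * (a * N j) ≤ N K)
    {g U : ℕ → E} (hP : Pre G₁ G₂ ρ N a δ K g U) (hf : ‖g K + U K‖ ≤ ρ K + δ) :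
    ∃ V ∈ G₂, ‖V - ∑ j ∈ range (K + 1), wt K j • (g j + U j)‖ ≤ a * N K ∧
      ∀ y W : E, (∀ i ≤ K, ‖y - W - U i - g i‖ ≤ ρ i) →
        ‖y - W - V‖ ≤ ∑ j ∈ range (K + 1), wt K j * ρ j + a * N K := by
  obtain ⟨h1, h2, h3, h4⟩ := hP
  set m : E := ∑ j ∈ range (K + 1), wt K j • g j with hm
  have hm1 : m ∈ G₁ := G₁.sum_mem fun j hj =>
    G₁.smul_mem _ (h1 j (by rw [Finset.mem_range] at hj; omega)).1
  have hmN : ‖m‖ ≤ N K := (mix_bound h2 hf h4).trans hN
  obtain ⟨z, hz, hmz⟩ := h12 m hm1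
  have hmz' : ‖m - z‖ ≤ a * N K := hmz.trans (mul_le_mul_of_nonneg_left hmN ha.le)
  have hsum : ∑ j ∈ range (K + 1), wt K j • (g j + U j) =
      m + ∑ j ∈ range (K + 1), wt K j • U j := by
    simp_rw [smul_add]
    rw [Finset.sum_add_distrib]
  refine ⟨∑ j ∈ range (K + 1), wt K j • U j + z, G₂.add_mem (G₂.sum_mem fun j hj =>
    G₂.smul_mem _ (h1 j (by rw [Finset.mem_range] at hj; omega)).2) hz, ?_, ?_⟩
  · rw [hsum]
    have e : ∑ j ∈ range (K + 1), wt K j • U j + z -
        (m + ∑ j ∈ range (K + 1), wt K j • U j) = -(m - z) := by abel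
    rw [e, norm_neg]
    exact hmz'
  · intro y W hy
    have e : y - W - (∑ j ∈ range (K + 1), wt K j • U j + z) =
        ∑ j ∈ range (K + 1), wt K j • (y - W - U j - g j) + (m - z) := by
      rw [sum_wt_dist]
      abel
    rw [e]
    refine (norm_add_le _ _).trans (add_le_add ?_ hmz')
    refine (norm_sum_le _ _).trans (Finset.sum_le_sum fun j hj => ?_)
    rw [norm_smul, Real.norm_of_nonneg (wt_nonneg _ _)]
    exact mul_le_mul_of_nonneg_left (hy j (by rw [Finset.mem_range] at hj; omega))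
      (wt_nonneg _ _)

theorem main {G₁ G₂ : Submodule ℝ E} {D : Set E} (hD : D ⊆ G₁) {L : Set E → Prop} {Y₀ : Set E}
    (hY₀ : L Y₀) (hYG : Y₀ ⊆ G₂) {a δ t : ℝ} (ha : 0 < a) (hδ : 0 < δ) (ht : 0 < t)
    (hdiam : ∀ y ∈ Y₀, ∀ y' ∈ Y₀, ‖y' - y‖ ≤ 2 * a)
    (hpig : ∀ Y, L Y → ∀ R : E → E → Prop, (∀ y ∈ Y, ∃ d ∈ D, R d y) →
      ∃ d ∈ D, L {y | y ∈ Y ∧ R d y})
    (hfar : ∀ Y, L Y → ∀ z ∈ G₂, ∃ y ∈ Y, t ≤ ‖y - z‖)
    (h12 : ∀ x ∈ G₁, ∃ y ∈ G₂, ‖x - y‖ ≤ a * ‖x‖)
    (h21 : ∀ y ∈ G₂, ∃ d ∈ D, ‖y - d‖ ≤ a * ‖y‖)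
    {ρ N μ : ℕ → ℝ} {K : ℕ} (h0 : a * (2 * a) ≤ ρ 0)
    (hN : ∀ k ≤ K, wt k k * (ρ k + δ) + ∑ j ∈ range k, wt k (j + 1) * (a * N j) ≤ N k)
    (hμ : ∀ k ≤ K, ∑ j ∈ range (k + 1), wt k j * ρ j + a * N k ≤ μ k)
    (hρ : ∀ k < K, a * μ k ≤ ρ (k + 1))
    (hfin : μ K < t) : False := by
  have hne : ∀ Y, L Y → Y.Nonempty := by
    intro Y hY
    obtain ⟨y, hy, -⟩ := hfar Y hY 0 G₂.zero_mem
    exact ⟨y, hy⟩
  have hgood : ∀ k ≤ K, ∀ Y, Y ⊆ Y₀ → L Y →
      Blk L G₂ ρ k (fun g U => Pre G₁ G₂ ρ N a δ k g U ∧ ‖g k + U k‖ ≤ ρ k + δ) Y := by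
    intro k
    induction k with
    | zero =>
      intro _
      refine tele hδ hdiam hne ?_
      intro Y hY hL
      obtain ⟨w, hw⟩ := hne Y hL
      have hwG : w ∈ G₂ := hYG (hY hw)
      obtain ⟨d, hd, hLd⟩ := hpig Y hL (fun d y => ‖y - w - d‖ ≤ ρ 0) (by
        intro y hy
        obtain ⟨d, hd, hyd⟩ := h21 (y - w) (G₂.sub_mem (hYG (hY hy)) hwG)
        refine ⟨d, hd, hyd.trans (le_trans ?_ h0)⟩
        exact mul_le_mul_of_nonneg_left (hdiam w (hY hw) y (hY hy)) ha.le)
      refine ⟨_, fun y hy => hy.1, hLd, w, fun _ => d, fun _ => 0, hwG, ?_, ?_, ?_⟩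
      · intro c r hr
        exact hr w hw
      · refine ⟨fun i _ => ⟨hD hd, G₂.zero_mem⟩, rfl, fun i hi => absurd hi (by omega),
          fun i hi => absurd hi (by omega)⟩
      · rintro y ⟨hy, hyd⟩ i hi
        have : i = 0 := by omega
        subst this
        simpa using hyd
    | succ k ih =>
      intro hk
      have ih' := ih (by omega)
      refine tele hδ hdiam hne ?_
      intro Y hY hL
      obtain ⟨Y', hY', hL', W, g, U, hW, hA, ⟨hP, hf⟩, hn⟩ := ih' Y hY hL
      obtain ⟨V, hV, hV1, hV2⟩ := new_vector ha h12 (hN k (by omega)) hP hf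
      obtain ⟨d, hd, hLd⟩ := hpig Y' hL' (fun d y => ‖y - W - V - d‖ ≤ ρ (k + 1)) (by
        intro y hy
        obtain ⟨d, hd, hyd⟩ := h21 (y - W - V)
          (G₂.sub_mem (G₂.sub_mem (hYG (hY (hY' hy))) hW) hV)
        refine ⟨d, hd, hyd.trans (le_trans ?_ (hρ k (by omega)))⟩
        exact mul_le_mul_of_nonneg_left ((hV2 y W (hn y hy)).trans (hμ k (by omega))) ha.le)
      refine ⟨_, fun y hy => hY' hy.1, hLd, W, Function.update g (k + 1) d,
        Function.update U (k + 1) V, hW, hA, ?_, ?_⟩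
      · obtain ⟨h1, h2, h3, h4⟩ := hP
        have hg : ∀ i ≤ k, Function.update g (k + 1) d i = g i := fun i hi =>
          Function.update_of_ne (by omega) _ _
        have hU : ∀ i ≤ k, Function.update U (k + 1) V i = U i := fun i hi =>
          Function.update_of_ne (by omega) _ _
        have hsum : ∀ i ≤ k, ∑ j ∈ range (i + 1), wt i j •
            (Function.update g (k + 1) d j + Function.update U (k + 1) V j) =
            ∑ j ∈ range (i + 1), wt i j • (g j + U j) := by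
          intro i hi
          refine Finset.sum_congr rfl fun j hj => ?_
          rw [Finset.mem_range] at hj
          rw [hg j (by omega), hU j (by omega)]
        refine ⟨fun i hi => ?_, ?_, fun i hi => ?_, fun i hi => ?_⟩
        · rcases Nat.lt_or_ge i (k + 1) with h | h
          · rw [hg i (by omega), hU i (by omega)]
            exact h1 i (by omega)
          · have : i = k + 1 := by omega
            subst this
            rw [Function.update_self, Function.update_self]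
            exact ⟨hD hd, hV⟩
        · rw [hU 0 (by omega)]
          exact h2
        · rw [hg i (by omega), hU i (by omega)]
          rcases Nat.lt_or_ge i k with h | h
          · exact h3 i h
          · have : i = k := by omega
            subst this
            exact hf
        · rw [hsum i (by omega)]
          rcases Nat.lt_or_ge i k with h | h
          · rw [hU (i + 1) (by omega)]
            exact h4 i h
          · have : i = k := by omega
            subst this
            rw [Function.update_self]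
            exact hV1
      · rintro y ⟨hy, hyd⟩ i hi
        rcases Nat.lt_or_ge i (k + 1) with h | h
        · rw [Function.update_of_ne (by omega), Function.update_of_ne (by omega)]
          exact hn y hy i (by omega)
        · have : i = k + 1 := by omega
          subst this
          rw [Function.update_self, Function.update_self]
          exact hyd
  obtain ⟨Y', hY', hL', W, g, U, hW, hA, ⟨hP, hf⟩, hn⟩ := hgood K le_rfl Y₀ subset_rfl hY₀
  obtain ⟨V, hV, hV1, hV2⟩ := new_vector ha h12 (hN K le_rfl) hP hf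
  obtain ⟨y, hy, hyt⟩ := hfar Y' hL' (W + V) (G₂.add_mem hW hV)
  have h1 := (hV2 y W (hn y hy)).trans (hμ K le_rfl)
  rw [← sub_sub] at hyt
  linarith

end Pool.Agent.Y912.OP
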